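import Pool.Agent.X250.QuadIA

/-!
# MP_df4ecf_al, Q2: `E₀^*(IA_n)` is not always a free Lie algebra modulo quadratic relations

For `n = 3` the kernel of the natural map `L[V] → E₀^*(IA_3)` is not generated, as a Lie ideal, by
elements of degree two.  In degree three there is the relation `[[K₁₂, K₁₃], K₁₂₃] = 0`, where
`K₁₂ : x₁ ↦ x₂x₁x₂⁻¹`, `K₁₃ : x₁ ↦ x₃x₁x₃⁻¹`, `K₁₂₃ : x₁ ↦ x₁[x₃⁻¹, x₂⁻¹]`, which is not a
consequence of quadratic relations.
-/

set_option autoImplicit false

namespace Pool.Agent.Results.MP_df4ecf_al.IAThreeNotQuadratic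

open Pool.Agent.X250.Quad

/-- **Negative answer to Q2.**  The graded Lie ring `E₀^*(IA_3)` is not a free Lie algebra modulo
quadratic relations. -/
theorem result : ¬ IsFreeModQuadratic (IA 3) := IA3_not_quadratic

end Pool.Agent.Results.MP_df4ecf_al.IAThreeNotQuadratic
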